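import Pool.Agent.TH882.T2

/-!
Integers as the sum of a prime and the square of an affine image of a prime `p` with close
neighbours: for all but a proportion `κ` of the vectors `(N_1, ..., N_r)` without local obstruction
all `N_j - (s_j p + t_j) ^ 2` are prime for a number of primes `p ≤ x` of the right order which have
`m` other primes of their class modulo `q` at distance at most `ε log x`.
-/

set_option autoImplicit false

open Finset Filter Topology Polynomial

namespace Pool.Agent.Results.MP_d48457_nt.SquaresOfAffineClusteredPrimes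

open Classical in
/-- The primes different from `p`, congruent to `p` modulo `q`, at distance at most `R` from `p`. -/
noncomputable def neighbours (q : ℕ) (R : ℝ) (p : ℕ) : Finset ℕ :=
  (Icc 1 (p + ⌊R⌋₊)).filter (fun p' => p'.Prime ∧ p' ≠ p ∧ p' % q = p % q ∧ |(p' : ℝ) - p| ≤ R)

/-- For every prime `l` there is an integer `n` such that `l` divides none of the numbers `n` and
`N_j - (s_j * n + t_j) ^ 2`. -/
def LocallyPossible {r : ℕ} (s : Fin r → ℕ) (t : Fin r → ℤ) (N : Fin r → ℕ) : Prop :=
  ∀ l : ℕ, l.Prime → ∃ n : ℤ, ¬ (l : ℤ) ∣ n ∧ ∀ j, ¬ (l : ℤ) ∣ N j - (s j * n + t j) ^ 2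

open Classical in
/-- The primes `p ≤ x` with at least `m` neighbours at distance at most `ε * log x` for which all
`N_j - (s_j * p + t_j) ^ 2` are (positive) primes. -/
noncomputable def representations {r : ℕ} (s : Fin r → ℕ) (t : Fin r → ℤ) (q m : ℕ) (ε : ℝ)
    (N : Fin r → ℕ) (x : ℕ) : Finset ℕ :=
  (Icc 1 x).filter (fun p => p.Prime ∧ m ≤ (neighbours q (ε * Real.log x) p).card ∧
    ∀ j, ((N j : ℤ) - (s j * p + t j) ^ 2).toNat.Prime)

open Classical in
/-- The locally possible vectors `1 ≤ N_j ≤ K x ^ 2` with few representations. -/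
noncomputable def exceptions {r : ℕ} (s : Fin r → ℕ) (t : Fin r → ℤ) (q m : ℕ) (ε c : ℝ)
    (K x : ℕ) : Finset (Fin r → ℕ) :=
  (Fintype.piFinset (fun _ : Fin r => Icc 1 (K * x ^ 2))).filter (fun N =>
    LocallyPossible s t N ∧
    ((representations s t q m ε N x).card : ℝ) < c * (x / Real.log x ^ (r + 1)))

theorem result (r : ℕ) (s : Fin r → ℕ) (hs : ∀ j, 2 ≤ s j) (t : Fin r → ℤ) (q m K : ℕ)
    (hq : 1 ≤ q) (ε κ : ℝ) (hε : 0 < ε) (hκ : 0 < κ) :
    (∃ c : ℝ, 0 < c ∧ ∃ x₀ : ℕ, ∀ x : ℕ, x₀ ≤ x →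
      ((exceptions s t q m ε c K x).card : ℝ) ≤ κ * ((x : ℝ) ^ 2) ^ r) ∧
    ∀ N : ℕ, LocallyPossible (fun _ : Fin 1 => 2) (fun _ => 1) (fun _ => N) ↔ Even N := by
  classical
  have main : ∀ (r : ℕ) (s : Fin r → ℕ) (t : Fin r → ℤ), (∀ j, 2 ≤ s j) →
      ∃ g : Fin r → ℤ[X], (∀ j, (g j).natDegree = 2) ∧ (∀ j, (g j).leadingCoeff = (s j : ℤ) ^ 2) ∧
        ∀ j, ∀ n : ℤ, (g j).eval n = (s j * n + t j) ^ 2 := by
    intro r s t hs
    have hne : ∀ j, ((s j : ℤ) ^ 2) ≠ 0 := fun j => by
      have := hs j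
      positivity
    refine ⟨fun j => C ((s j : ℤ) ^ 2) * X ^ 2 + C (2 * s j * t j) * X + C (t j ^ 2), ?_, ?_, ?_⟩
    · intro j
      exact natDegree_quadratic (hne j)
    · intro j
      exact leadingCoeff_quadratic (hne j)
    · intro j n
      simp only [eval_add, eval_mul, eval_C, eval_pow, eval_X]
      ring
  constructor
  · obtain ⟨g, hgd, hgl, hge⟩ := main r s t hs
    obtain ⟨c, hc, x₀, h⟩ := Pool.Agent.TH882.TS.nb_mainG g
      (fun j => by rw [hgd j]; norm_num)
      (fun j => by
        rw [hgl j]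
        have := hs j
        positivity) q m hq ε hε K κ hκ
    refine ⟨c, hc, x₀, fun x hx => ?_⟩
    have h1 := h x hx
    have e0 : ∏ j, (x : ℝ) ^ (g j).natDegree = ((x : ℝ) ^ 2) ^ r := by
      rw [prod_congr rfl fun j _ => by rw [hgd j]]
      rw [prod_const, card_univ, Fintype.card_fin]
    rw [e0] at h1
    refine le_trans (Pool.Agent.TH882.TS.sub_excG _ g c K x _
      (fun N => representations s t q m ε N x) ?_ ?_ ?_ ?_) h1
    · intro N hN j
      unfold exceptions at hN
      rw [mem_filter, Fintype.mem_piFinset] at hN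
      rw [hgd j]
      exact hN.1 j
    · intro N hN l hlp
      unfold exceptions at hN
      rw [mem_filter] at hN
      obtain ⟨n, hn1, hn2⟩ := hN.2.1 l hlp
      refine ⟨n, hn1, fun j h => hn2 j ?_⟩
      rw [hge j n] at h
      exact h
    · intro N hN
      unfold exceptions at hN
      rw [mem_filter] at hN
      exact hN.2.2
    · intro N hN n hn1 hn2 hn3 hn4
      unfold representations
      rw [mem_filter]
      refine ⟨hn1, hn2, hn3, fun j => ?_⟩
      have h2 := hn4 j
      rw [hge j] at h2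
      exact h2
  · intro N
    constructor
    · intro h
      obtain ⟨n, hn1, hn2⟩ := h 2 Nat.prime_two
      have h1 := hn2 0
      push_cast at h1
      rw [Nat.even_iff]
      by_contra hcon
      apply h1
      obtain ⟨u, hu⟩ : ∃ u : ℤ, (N : ℤ) = 2 * u + 1 := ⟨N / 2, by omega⟩
      exact ⟨u - 2 * n ^ 2 - 2 * n, by rw [hu]; ring⟩
    · intro hN l hlp
      rw [Nat.even_iff] at hN
      rcases Nat.lt_or_ge l 4 with h4 | h4
      · have hl2 := hlp.two_le
        have h5 : l = 2 ∨ l = 3 := by omega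
        rcases h5 with rfl | rfl
        · refine ⟨1, by norm_num, fun j hd => ?_⟩
          have h6 : (N : ℤ) - (((2 : ℕ) : ℤ) * 1 + 1) ^ 2 = N - 9 := by norm_num
          rw [h6] at hd
          have h7 : ((N : ℤ) - 9) % 2 = 0 := Int.emod_eq_zero_of_dvd (by exact_mod_cast hd)
          omega
        · by_cases h3 : N % 3 = 0
          · refine ⟨2, by norm_num, fun j hd => ?_⟩
            have h6 : (N : ℤ) - (((2 : ℕ) : ℤ) * 2 + 1) ^ 2 = N - 25 := by norm_num
            rw [h6] at hd
            have h7 : ((N : ℤ) - 25) % 3 = 0 := Int.emod_eq_zero_of_dvd (by exact_mod_cast hd)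
            omega
          · refine ⟨1, by norm_num, fun j hd => ?_⟩
            have h6 : (N : ℤ) - (((2 : ℕ) : ℤ) * 1 + 1) ^ 2 = N - 9 := by norm_num
            rw [h6] at hd
            have h7 : ((N : ℤ) - 9) % 3 = 0 := Int.emod_eq_zero_of_dvd (by exact_mod_cast hd)
            omega
      · have hl4 : l ≠ 4 := by
          rintro rfl
          exact absurd hlp (by norm_num)
        obtain ⟨g, hgd, hgl, hge⟩ := main 1 (fun _ => 2) (fun _ => 1) (fun _ => le_refl 2)
        obtain ⟨n, hn1, hn2⟩ := Pool.Agent.TH882.TS.wit (fun _ : Fin 1 => (-1 : ℤ))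
          (fun _ => Or.inr rfl) g (fun j => by rw [hgd j]; norm_num) l hlp
          (fun j hd => by
            rw [hgl j] at hd
            have h8 : (l : ℤ) ∣ ((4 : ℕ) : ℤ) := by exact_mod_cast hd
            have h9 : l ∣ 4 := by exact_mod_cast h8
            have h10 := Nat.le_of_dvd (by norm_num) h9
            omega)
          (by rw [Fin.sum_univ_one, hgd 0]; omega) (fun _ => N)
        refine ⟨n, hn1, fun j hd => hn2 j ?_⟩
        rw [hge j]
        have e1 : (N : ℤ) + -1 * (((2 : ℕ) : ℤ) * n + 1) ^ 2 = N - (((2 : ℕ) : ℤ) * n + 1) ^ 2 := by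
          ring
        rw [e1]
        exact hd

end Pool.Agent.Results.MP_d48457_nt.SquaresOfAffineClusteredPrimes
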