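import Pool.Agent.TH872.Sq.W16

set_option autoImplicit false

namespace Pool.Agent.Results.MP_d48457_nt.SquaresOfDigitRestrictedIntegers
open Finset
open Pool.Agent.TH872.Sq (qv dg ld fx th nu1 SD SgD1 main_vm1 main_pos1 th_le quad_roots dg_ne)

/-- the integers below `b ^ k` whose `i`-th digit in base `b` belongs to `D i` for all `i < k` -/
def S (b : ℕ) (D : ℕ → Finset ℕ) (k : ℕ) : Finset ℕ := (range (b ^ k)).filter (fun n : ℕ => ∀ i < k, n / b ^ i % b ∈ D i)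

/-- the primes up to `z` -/
def primes (z : ℕ) : Finset ℕ := (Icc 1 z).filter Nat.Prime

/-- the number of the residues `a` modulo `p` with `a ^ 2 ≡ m` -/
def rho (m p : ℕ) : ℕ := ((range p).filter (fun a : ℕ => (p : ℤ) ∣ (m : ℤ) - (a : ℤ) ^ 2)).card

/-- the sum of `log (m - n ^ 2)` over the `n` in `S` for which `m - n ^ 2` is prime -/
noncomputable def R (b : ℕ) (D : ℕ → Finset ℕ) (k m : ℕ) : ℝ :=
  ∑ n ∈ (S b D k).filter (fun n : ℕ => (m - n ^ 2).Prime), Real.log ((m - n ^ 2 : ℕ) : ℝ)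

/-- the number of the `n` in `S` such that no prime `p ≤ b` divides `m - n ^ 2` -/
def loc (b : ℕ) (D : ℕ → Finset ℕ) (k m : ℕ) : ℕ := ((S b D k).filter (fun n : ℕ => ∀ p ∈ primes b, ¬ (p : ℤ) ∣ (m : ℤ) - (n : ℤ) ^ 2)).card

/-- the predicted average -/
noncomputable def sigma (b : ℕ) (D : ℕ → Finset ℕ) (k m z : ℕ) : ℝ :=
  (∏ p ∈ primes z, (1 - 1 / (p : ℝ)))⁻¹ * ((loc b D k m : ℝ) / (S b D k).card) *
    ∏ p ∈ (primes z).filter (fun p => b < p), (1 - (rho m p : ℝ) / p)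

lemma qv_eq (n m : ℕ) : qv (-1) 0 n + 1 * (m : ℤ) = (m : ℤ) - (n : ℤ) ^ 2 := by
  unfold qv; ring

lemma nu_eq (m p : ℕ) : nu1 (-1) 0 (1 * (m : ℤ)) p = rho m p := by
  unfold nu1 rho
  congr 1
  apply filter_congr
  intro a _
  rw [show (-1 : ℤ) * (a : ℤ) ^ 2 + 0 * a + 1 * (m : ℤ) = (m : ℤ) - (a : ℤ) ^ 2 by ring]

lemma loc_eq (b : ℕ) (D : ℕ → Finset ℕ) (k m : ℕ) :
    ((SD b D k).filter (fun n : ℕ => ∀ p ∈ Pool.Agent.H373R2.T7.pz b, ¬ (p : ℤ) ∣ (-1) * (n : ℤ) ^ 2 + 0 * n + 1 * (m : ℤ))).card = loc b D k m := by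
  unfold loc
  congr 1
  apply filter_congr
  intro n _
  rw [show (-1 : ℤ) * (n : ℤ) ^ 2 + 0 * n + 1 * (m : ℤ) = (m : ℤ) - (n : ℤ) ^ 2 by ring]
  rfl

lemma sig_eq (b : ℕ) (D : ℕ → Finset ℕ) (k m z : ℕ) : SgD1 b D k (-1) 0 (1 * (m : ℤ)) z = sigma b D k m z := by
  unfold SgD1 sigma
  rw [loc_eq]
  simp only [nu_eq]
  rfl

lemma sq_lt (b k n m : ℕ) (hn : n < b ^ k) (hm : b ^ (2 * k) ≤ m) : n ^ 2 < m := by
  refine lt_of_lt_of_le ?_ hm
  rw [mul_comm 2 k, pow_mul]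
  exact Nat.pow_lt_pow_left hn (by norm_num)

lemma toNat_eq (n m : ℕ) (h : n ^ 2 < m) : ((m : ℤ) - (n : ℤ) ^ 2).toNat = m - n ^ 2 := by
  have : ((n : ℤ)) ^ 2 = ((n ^ 2 : ℕ) : ℤ) := by push_cast; rfl
  rw [this]
  omega

lemma R_eq (b : ℕ) (D : ℕ → Finset ℕ) (k m : ℕ) (hm : b ^ (2 * k) ≤ m) :
    ∑ n ∈ SD b D k, fx th (qv (-1) 0 n + 1 * (m : ℤ)) = R b D k m := by
  unfold R
  rw [sum_filter]
  apply sum_congr rfl
  intro n hn
  have hn' : n < b ^ k := by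
    unfold SD at hn
    exact mem_range.1 (mem_filter.1 hn).1
  have h1 := sq_lt b k n m hn' hm
  rw [qv_eq]
  unfold fx th
  have h2 : (1 : ℤ) ≤ (m : ℤ) - (n : ℤ) ^ 2 := by
    have : ((n ^ 2 : ℕ) : ℤ) < (m : ℤ) := by exact_mod_cast h1
    push_cast at this
    omega
  rw [if_pos h2, toNat_eq n m h1]

/-- **Almost all `m` are sums of a prime and the square of an integer with restricted digits, with an asymptotic
formula.** -/
theorem result (b : ℕ) (hb : 2 ≤ b) (F A U : ℕ) : ∃ B : ℕ, ∀ E : ℕ, ∃ K₀ : ℕ, ∀ k : ℕ, K₀ ≤ k → ∀ z : ℕ,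
    (k : ℝ) ^ B ≤ z → (z : ℝ) ≤ (k : ℝ) ^ E → ∀ D : ℕ → Finset ℕ, (∀ i < k, D i ⊆ range b ∧ 2 ≤ (D i).card) →
    (((Icc (b ^ (2 * k)) (F * b ^ (2 * k))).filter (fun m : ℕ =>
      1 / (k : ℝ) ^ U < |R b D k m / (S b D k).card - sigma b D k m z|)).card : ℝ) ≤ ((b ^ (2 * k) : ℕ) : ℝ) / (k : ℝ) ^ U ∧
    (((Icc (b ^ (2 * k)) (F * b ^ (2 * k))).filter (fun m : ℕ => ((S b D k).card : ℝ) / (k : ℝ) ^ A ≤ (loc b D k m : ℝ) ∧
      (((S b D k).filter (fun n : ℕ => (m - n ^ 2).Prime)).card : ℝ) < ((S b D k).card : ℝ) / (k : ℝ) ^ (A + 12))).card : ℝ) ≤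
      ((b ^ (2 * k) : ℕ) : ℝ) / (k : ℝ) ^ U := by
  classical
  have hld : ld (-1) 0 ≠ 0 := by decide
  have hdg : dg (-1) = 2 := dg_ne (by decide)
  obtain ⟨B, h1⟩ := main_vm1 b hb (-1) 0 hld th (fun n => ⟨le_rfl, th_le n⟩) (F + 1) (U + 1)
  obtain ⟨K2, h2⟩ := main_pos1 b hb (-1) 0 hld (F + 1) A (U + 1)
  refine ⟨B, fun E => ?_⟩
  obtain ⟨K1, h1⟩ := h1 E
  refine ⟨K1 + K2 + F + 2, fun k hk z hz1 hz2 D hD => ?_⟩
  have hk1 : (F : ℝ) + 1 ≤ k := by exact_mod_cast (by omega : F + 1 ≤ k)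
  have hk2 : (1 : ℝ) ≤ k := by exact_mod_cast (by omega : 1 ≤ k)
  have hk0 : (0 : ℝ) < k := by linarith
  obtain ⟨X, hX⟩ : ∃ X, X = (F + 1) * b ^ (2 * k) := ⟨_, rfl⟩
  have hX1 : b ^ (dg (-1) * k) ≤ X := by rw [hdg, hX]; exact Nat.le_mul_of_pos_left _ (by omega)
  have hX2 : X ≤ (F + 1) * b ^ (dg (-1) * k) := by rw [hdg, hX]
  have hbk : 1 ≤ b ^ (2 * k) := Nat.one_le_pow _ _ (by omega)
  have hpos : ∀ m, b ^ (2 * k) ≤ m → ∀ n < b ^ k, 1 ≤ qv (-1) 0 n + 1 * (m : ℤ) := by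
    intro m hm n hn
    rw [qv_eq]
    have : ((n ^ 2 : ℕ) : ℤ) < (m : ℤ) := by exact_mod_cast sq_lt b k n m hn hm
    push_cast at this
    omega
  have hbound : (X : ℝ) / (k : ℝ) ^ (U + 1) ≤ ((b ^ (2 * k) : ℕ) : ℝ) / (k : ℝ) ^ U := by
    rw [hX, pow_succ, div_le_div_iff₀ (by positivity) (by positivity)]
    have hp : 0 ≤ ((b ^ (2 * k) : ℕ) : ℝ) * (k : ℝ) ^ U := by positivity
    have h3 := mul_le_mul_of_nonneg_right hk1 hp
    have h4 : (((F + 1) * b ^ (2 * k) : ℕ) : ℝ) = ((F : ℝ) + 1) * ((b ^ (2 * k) : ℕ) : ℝ) := by push_cast; ring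
    rw [h4]
    linarith
  have hsub : ∀ (P : ℕ → Prop) [DecidablePred P], ((Icc (b ^ (2 * k)) (F * b ^ (2 * k))).filter P).card ≤
      ((Icc 1 X).filter (fun m => b ^ (2 * k) ≤ m ∧ P m)).card := by
    intro P _
    apply card_le_card
    intro m hm
    rw [mem_filter, mem_Icc] at hm ⊢
    refine ⟨⟨by omega, ?_⟩, hm.1.1, hm.2⟩
    rw [hX, add_mul]
    omega
  constructor
  · have h3 := h1 k (by omega) z hz1 hz2 D hD 1 (Or.inl rfl) X hX1 hX2 (fun m : ℕ => b ^ (2 * k) ≤ m ∧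
      1 / (k : ℝ) ^ U < |R b D k m / (S b D k).card - sigma b D k m z|) (by
        intro m _ hm
        refine ⟨hpos m hm.1, ?_⟩
        rw [sig_eq, R_eq b D k m hm.1, one_div_mul_eq_div]
        refine lt_of_le_of_lt ?_ hm.2
        apply one_div_le_one_div_of_le (by positivity)
        exact pow_le_pow_right₀ hk2 (by omega))
    refine le_trans ?_ (h3.trans hbound)
    exact_mod_cast hsub _
  · have h3 := h2 k (by omega) D hD 1 (Or.inl rfl) X hX1 hX2 (fun m : ℕ => b ^ (2 * k) ≤ m ∧ (((S b D k).card : ℝ) / (k : ℝ) ^ A ≤ (loc b D k m : ℝ) ∧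
      (((S b D k).filter (fun n : ℕ => (m - n ^ 2).Prime)).card : ℝ) < ((S b D k).card : ℝ) / (k : ℝ) ^ (A + 12))) (by
        intro m _ hm
        refine ⟨hpos m hm.1, ?_, ?_, ?_⟩
        · intro p hp hbp
          have h4 := quad_roots p hp (-1) 0 (1 * (m : ℤ)) (by
            unfold ld
            rw [if_neg (by decide)]
            intro h5
            have h6 : p ∣ 1 := by
              have := Int.natAbs_dvd_natAbs.2 h5
              simpa using this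
            exact hp.one_lt.ne' (Nat.dvd_one.1 h6))
          have h5 : nu1 (-1) 0 (1 * (m : ℤ)) p ≤ 2 := h4
          omega
        · rw [loc_eq]
          exact hm.2.1
        · refine lt_of_le_of_lt (le_of_eq ?_) hm.2.2
          congr 2
          apply filter_congr
          intro n hn
          have hn' : n < b ^ k := by
            unfold SD at hn
            exact mem_range.1 (mem_filter.1 hn).1
          rw [qv_eq, toNat_eq n m (sq_lt b k n m hn' hm.1)])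
    refine le_trans ?_ (h3.trans hbound)
    exact_mod_cast hsub _

end Pool.Agent.Results.MP_d48457_nt.SquaresOfDigitRestrictedIntegers
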