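import Pool.Agent.TH685.TI.Sq

set_option autoImplicit false
set_option maxHeartbeats 1000000

/-! # The typical size of the least square in sums of a prime and a square -/

namespace Pool.Agent.Results.MP_d48457_nt.TypicalLeastSquare

open Finset Filter Pool.Agent.TH685.Sq

theorem lower (ε : ℝ) (hε : 0 < ε) : ∃ c : ℝ, 0 < c ∧ ∃ X₀ : ℕ, ∀ X : ℕ, X₀ ≤ X → ∀ Y : ℕ,
    (Set.ncard {n : ℕ | Y < n ∧ n ≤ Y + X ∧ ∃ p m : ℕ, p.Prime ∧ p + m ^ 2 = n ∧
      (m : ℝ) ≤ c * Real.log X} : ℝ) ≤ ε * X := by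
  obtain ⟨C, hC, hbt⟩ := Pool.Agent.Helper601.brun_titchmarsh
  obtain ⟨c, hc⟩ : ∃ c : ℝ, c = ε / (2 * C) := ⟨_, rfl⟩
  have hc0 : 0 < c := by rw [hc]; positivity
  have hlogt : Tendsto (fun x : ℕ => Real.log (x : ℝ)) atTop atTop :=
    Real.tendsto_log_atTop.comp tendsto_natCast_atTop_atTop
  obtain ⟨X₀, hX₀⟩ := eventually_atTop.1 ((hlogt.eventually_ge_atTop (1 / c)).and
    (eventually_ge_atTop 2))
  refine ⟨c, hc0, X₀, fun X hX Y => ?_⟩
  obtain ⟨h1, h2⟩ := hX₀ X hX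
  have hXr : (2 : ℝ) ≤ X := by exact_mod_cast h2
  obtain ⟨L, hL⟩ : ∃ L : ℝ, L = Real.log X := ⟨_, rfl⟩
  rw [← hL] at h1 ⊢
  have hLpos : 0 < L := by rw [hL]; exact Real.log_pos (by linarith)
  rw [div_le_iff₀ hc0] at h1
  obtain ⟨M, hM⟩ : ∃ M : ℕ, M = ⌊c * L⌋₊ := ⟨_, rfl⟩
  have hMle : (M : ℝ) ≤ c * L := by rw [hM]; exact Nat.floor_le (by positivity)
  obtain ⟨F, hF⟩ : ∃ F : ℕ → Finset ℕ, ∀ m : ℕ, F m =
    (range X).filter (fun k : ℕ => Nat.Prime (Y + 1 - m ^ 2 + k * 1)) := ⟨_, fun _ => rfl⟩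
  obtain ⟨B, hB⟩ : ∃ B : Finset ℕ, B = (range (M + 1)).biUnion (fun m : ℕ =>
    (F m).image (fun k : ℕ => Y + 1 - m ^ 2 + k * 1 + m ^ 2)) := ⟨_, rfl⟩
  have hBc : (B.card : ℝ) ≤ ε * X := by
    have h3 : B.card ≤ ∑ m ∈ range (M + 1), (F m).card := by
      rw [hB]
      exact card_biUnion_le.trans (sum_le_sum fun m _ => card_image_le)
    have h4 : (B.card : ℝ) ≤ ∑ m ∈ range (M + 1), ((F m).card : ℝ) := by
      exact_mod_cast h3
    have h5 : ∑ m ∈ range (M + 1), ((F m).card : ℝ) ≤ ∑ m ∈ range (M + 1), C * X / L := by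
      apply sum_le_sum
      intro m _
      rw [hL, hF m]
      exact hbt (Y + 1 - m ^ 2) 1 X h2 (Or.inl rfl)
    rw [sum_const, card_range, nsmul_eq_mul] at h5
    have h6 : ((M + 1 : ℕ) : ℝ) ≤ 2 * (c * L) := by
      push_cast
      linarith
    calc (B.card : ℝ) ≤ ((M + 1 : ℕ) : ℝ) * (C * X / L) := h4.trans h5
      _ ≤ 2 * (c * L) * (C * X / L) := by gcongr
      _ = (2 * C * c) * X := by field_simp
      _ = ε * X := by rw [hc]; field_simp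
  have hsub : {n : ℕ | Y < n ∧ n ≤ Y + X ∧ ∃ p m : ℕ, p.Prime ∧ p + m ^ 2 = n ∧
      (m : ℝ) ≤ c * L} ⊆ (B : Set ℕ) := by
    rintro n ⟨hn1, hn2, p, m, hp, hpm, hm⟩
    have hmM : m ≤ M := by
      rw [hM]
      exact Nat.le_floor hm
    have hp1 := hp.pos
    rw [mem_coe, hB, mem_biUnion]
    refine ⟨m, mem_range.2 (by omega), ?_⟩
    rw [mem_image]
    have hle : Y + 1 - m ^ 2 ≤ p := by omega
    refine ⟨p - (Y + 1 - m ^ 2), ?_, ?_⟩
    · rw [hF m, mem_filter, mem_range]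
      have e : Y + 1 - m ^ 2 + (p - (Y + 1 - m ^ 2)) * 1 = p := by omega
      rw [e]
      exact ⟨by omega, hp⟩
    · omega
  have h5 := Set.ncard_le_ncard hsub (Finset.finite_toSet B)
  rw [Set.ncard_coe_finset] at h5
  have h6 : (Set.ncard {n : ℕ | Y < n ∧ n ≤ Y + X ∧ ∃ p m : ℕ, p.Prime ∧ p + m ^ 2 = n ∧
      (m : ℝ) ≤ c * L} : ℝ) ≤ B.card := by exact_mod_cast h5
  exact h6.trans hBc

open Classical in
theorem upper (β δ : ℝ) (hβ : 0 < β) (hδ : 0 < δ) : ∃ c : ℝ, 0 < c ∧ ∀ A : Set ℕ,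
    (∀ m ∈ A, Odd m) → (∀ᶠ y : ℕ in atTop, β * y ≤ Set.ncard {m : ℕ | m ∈ A ∧ m ≤ y}) →
    ∀ᶠ x : ℕ in atTop, c * x ≤ Set.ncard {n : ℕ | n ≤ x ∧ Even n ∧ ∃ p m : ℕ, p.Prime ∧ m ∈ A ∧
      p + m ^ 2 = n ∧ (m : ℝ) ≤ δ * Real.log n} := by
  obtain ⟨c, hc, hs⟩ := small_squares β (δ / 2) hβ (by positivity)
  refine ⟨c / 8, by positivity, fun A hA hd => ?_⟩
  obtain ⟨y0, hd⟩ := eventually_atTop.1 hd
  obtain ⟨x0, hs⟩ := hs A (fun m hm => Nat.odd_iff.1 (hA m hm)) ⟨y0, fun y hy => by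
    refine ⟨(Icc 1 y).filter (fun m => m ∈ A), filter_subset _ _,
      fun m hm => (mem_filter.1 hm).2, ?_⟩
    refine (hd y hy).trans ?_
    have h1 : {m : ℕ | m ∈ A ∧ m ≤ y} ⊆ (((Icc 1 y).filter (fun m => m ∈ A) : Finset ℕ) : Set ℕ) := by
      rintro m ⟨hm1, hm2⟩
      have := Nat.odd_iff.1 (hA m hm1)
      rw [mem_coe, mem_filter, mem_Icc]
      exact ⟨⟨by omega, hm2⟩, hm1⟩
    have h2 := Set.ncard_le_ncard h1 (Finset.finite_toSet _)
    rw [Set.ncard_coe_finset] at h2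
    exact_mod_cast h2⟩
  obtain ⟨w0, hw0⟩ := exists_nat_ge (16 / c ^ 2)
  filter_upwards [eventually_ge_atTop (2 * x0 + 2 * w0 + 40)] with X hX
  obtain ⟨x, hx⟩ : ∃ x : ℕ, x = X / 2 := ⟨_, rfl⟩
  obtain ⟨T, hT1, hT2, hT3⟩ := hs x (by omega)
  have hx20 : 20 ≤ x := by omega
  have hxw : w0 ≤ x := by omega
  have hxr : (20 : ℝ) ≤ x := by exact_mod_cast hx20
  have hwr : (w0 : ℝ) ≤ x := by exact_mod_cast hxw
  have hXx : (X : ℝ) ≤ 2 * x + 1 := by
    have : X ≤ 2 * x + 1 := by omega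
    exact_mod_cast this
  -- the elements which are not too small
  have hbig : c / 2 * x ≤ ((T.filter (fun n => x < n ^ 2)).card : ℝ) := by
    have h1 : T.card ≤ (T.filter (fun n => x < n ^ 2)).card + Nat.sqrt x := by
      have h2 := card_filter_add_card_filter_not (s := T) (fun n => x < n ^ 2)
      have h3 : (T.filter (fun n => ¬ x < n ^ 2)).card ≤ (Icc 1 (Nat.sqrt x)).card := by
        apply card_le_card
        intro n hn
        rw [mem_filter] at hn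
        have h4 := mem_Icc.1 (hT1 hn.1)
        rw [mem_Icc]
        refine ⟨by omega, ?_⟩
        rw [Nat.le_sqrt']
        exact not_lt.1 hn.2
      rw [Nat.card_Icc, Nat.add_sub_cancel] at h3
      omega
    have h2 : (T.card : ℝ) ≤ ((T.filter (fun n => x < n ^ 2)).card : ℝ) + (Nat.sqrt x : ℝ) := by
      exact_mod_cast h1
    have h3 : (Nat.sqrt x : ℝ) ≤ √(x : ℝ) := Real.nat_sqrt_le_real_sqrt
    have h4 : √(x : ℝ) ≤ c / 2 * x := by
      rw [Real.sqrt_le_left (by positivity)]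
      have h5 : 16 / c ^ 2 ≤ x := hw0.trans hwr
      rw [div_le_iff₀ (by positivity)] at h5
      have h6 : (x : ℝ) * 16 ≤ x * (x * c ^ 2) := mul_le_mul_of_nonneg_left h5 (by positivity)
      nlinarith
    linarith
  obtain ⟨G, hG⟩ : ∃ G : Set ℕ, G = {n : ℕ | n ≤ X ∧ Even n ∧ ∃ p m : ℕ, p.Prime ∧ m ∈ A ∧
      p + m ^ 2 = n ∧ (m : ℝ) ≤ δ * Real.log n} := ⟨_, rfl⟩
  rw [← hG]
  have hGfin : G.Finite := by
    rw [hG]
    exact (Set.finite_Iic X).subset (fun n hn => hn.1)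
  have hsub : (((T.filter (fun n => x < n ^ 2)).image (fun n => 2 * n) : Finset ℕ) : Set ℕ) ⊆ G := by
    intro N hN
    rw [mem_coe, mem_image] at hN
    obtain ⟨n, hn, rfl⟩ := hN
    rw [mem_filter] at hn
    have h1 := mem_Icc.1 (hT1 hn.1)
    obtain ⟨m, hmA, q, hq, hmL, hmq⟩ := hT3 n hn.1
    rw [hG]
    refine ⟨by omega, even_two_mul n, q, m, hq, hmA, by omega, ?_⟩
    have h2 : (x : ℝ) < (n : ℝ) ^ 2 := by exact_mod_cast hn.2
    have h3 : Real.log x ≤ 2 * Real.log n := by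
      have := Real.log_le_log (by linarith) h2.le
      rw [Real.log_pow] at this
      exact_mod_cast this
    have h4 : Real.log n ≤ Real.log ((2 * n : ℕ) : ℝ) := by
      have hn3 : (3 : ℝ) ≤ n := by exact_mod_cast h1.1
      apply Real.log_le_log (by linarith)
      push_cast
      linarith
    calc (m : ℝ) ≤ δ / 2 * Real.log x := hmL
      _ ≤ δ / 2 * (2 * Real.log n) := by gcongr
      _ = δ * Real.log n := by ring
      _ ≤ δ * Real.log ((2 * n : ℕ) : ℝ) := by gcongr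
  have h5 := Set.ncard_le_ncard hsub hGfin
  rw [Set.ncard_coe_finset, card_image_of_injective _
    (fun a b h => Nat.eq_of_mul_eq_mul_left (by norm_num : 0 < 2) h)] at h5
  have h6 : ((T.filter (fun n => x < n ^ 2)).card : ℝ) ≤ Set.ncard G := by exact_mod_cast h5
  refine le_trans ?_ (hbig.trans h6)
  nlinarith

/-- **Theorem.** (1) For every `ε > 0` there is `c > 0` such that for all large `X` and all `Y` at most
`ε X` of the integers `n` with `Y < n ≤ Y + X` are of the form `n = p + m²` with `p` prime and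
`m ≤ c log X`.

(2) For all `β, δ > 0` there is `c > 0` such that for every set `A` of odd numbers of lower density at
least `β` (in the form: at least `β y` elements up to `y` for all large `y`), for all large `x` at
least `c x` of the even `n ≤ x` are of the form `n = p + m²` with `p` prime, `m` in `A` and
`m ≤ δ log n`. -/
theorem result :
    (∀ ε : ℝ, 0 < ε → ∃ c : ℝ, 0 < c ∧ ∃ X₀ : ℕ, ∀ X : ℕ, X₀ ≤ X → ∀ Y : ℕ,
      (Set.ncard {n : ℕ | Y < n ∧ n ≤ Y + X ∧ ∃ p m : ℕ, p.Prime ∧ p + m ^ 2 = n ∧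
        (m : ℝ) ≤ c * Real.log X} : ℝ) ≤ ε * X) ∧
    (∀ β δ : ℝ, 0 < β → 0 < δ → ∃ c : ℝ, 0 < c ∧ ∀ A : Set ℕ,
      (∀ m ∈ A, Odd m) → (∀ᶠ y : ℕ in atTop, β * y ≤ Set.ncard {m : ℕ | m ∈ A ∧ m ≤ y}) →
      ∀ᶠ x : ℕ in atTop, c * x ≤ Set.ncard {n : ℕ | n ≤ x ∧ Even n ∧ ∃ p m : ℕ, p.Prime ∧ m ∈ A ∧
        p + m ^ 2 = n ∧ (m : ℝ) ≤ δ * Real.log n}) :=
  ⟨fun ε hε => lower ε hε, fun β δ hβ hδ => upper β δ hβ hδ⟩

end Pool.Agent.Results.MP_d48457_nt.TypicalLeastSquare
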